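import Pool.Agent.K1H6.PLG.Pat

/-!
# The extension step
-/

namespace Pool.Agent.K1H6.PLG

open Pool.Agent.K1H49.PL Classical

universe u

variable {M : Type u} {X ι K I : Type}

theorem finLN (n : ℕ) : Finite (LN n) := (List.finite_length_le Bool n).to_subtype

/-- the pull back of the first kind of conditions -/
def J1 {n : ℕ} (E0 : LN n → I) (E : K → LN n → Nd) :
    X ⊕ (Option K × LN n × ι) → X ⊕ ((I × ι) ⊕ (K × Nd × ι))
  | .inl a => .inl a
  | .inr (none, η, i) => .inr (.inl (E0 η, i))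
  | .inr (some k, η, i) => .inr (.inr (k, E k η, i))

/-- the pull back of the second kind of conditions -/
def J2 {a : ℕ} {dg : K → ℕ} (E0 : LN a → I) (E : ∀ k, LN (dg k) → Nd) :
    X ⊕ ((Σ k, LN (dgo a dg k)) × ι) → X ⊕ ((I × ι) ⊕ (K × Nd × ι))
  | .inl a => .inl a
  | .inr (⟨none, η⟩, i) => .inr (.inl (E0 η, i))
  | .inr (⟨some k, η⟩, i) => .inr (.inr (k, E k η, i))

/-- the root, the left and the right cone -/
def PP {m : ℕ} {dg : K → ℕ} (π : I) : X ⊕ ((Σ k, LN (dgo (m + 1) dg k)) × ι) →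
    (X ⊕ (I × ι)) ⊕ ((Σ k, LN (dgo m (dgo m dg) k)) × ι)
  | .inl a => .inl (.inl a)
  | .inr (⟨none, ⟨[], _⟩⟩, i) => .inl (.inr (π, i))
  | .inr (⟨none, ⟨false :: η, h⟩⟩, i) => .inr (⟨none, ⟨η, Nat.le_of_succ_le_succ h⟩⟩, i)
  | .inr (⟨none, ⟨true :: η, h⟩⟩, i) => .inr (⟨some none, ⟨η, Nat.le_of_succ_le_succ h⟩⟩, i)
  | .inr (⟨some k, η⟩, i) => .inr (⟨some (some k), η⟩, i)

/-- the family of trees of the step -/
def TT (C0 C1 : Nd → I) (w : I → ι → M) (s : K → Nd → ι → M) : Option (Option K) → Nd → ι → M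
  | none => fun ρ => w (C0 ρ)
  | some none => fun ρ => w (C1 ρ)
  | some (some k) => s k

/-- parameters with the long tree -/
def xx (x : X → M) (w : I → ι → M) : X ⊕ (I × ι) → M := Sum.elim x (fun p => w p.1 p.2)

noncomputable def Q1 (lt : Bool → I → I → Prop) (π : I) {n : ℕ} (E0 : LN n → I) :
    X ⊕ (Option K × LN n × ι) → (X ⊕ (I × ι)) ⊕ (Option (Option K) × LN n × ι)
  | .inl a => .inl (.inl a)
  | .inr (none, η, i) => if lt false π (E0 η) then .inr (none, η, i) else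
      if lt true π (E0 η) then .inr (some none, η, i) else .inl (.inr (E0 η, i))
  | .inr (some k, η, i) => .inr (some (some k), η, i)

noncomputable def Q2 (lt : Bool → I → I → Prop) (π : I) {a N : ℕ} {dg : K → ℕ} (ha : a ≤ N)
    (hN : ∀ k, dg k ≤ N) (E0 : LN a → I) :
    X ⊕ ((Σ k, LN (dgo a dg k)) × ι) → (X ⊕ (I × ι)) ⊕ (Option (Option K) × LN N × ι)
  | .inl a => .inl (.inl a)
  | .inr (⟨none, η⟩, i) => if lt false π (E0 η) then .inr (none, ⟨η.1, le_trans η.2 ha⟩, i) else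
      if lt true π (E0 η) then .inr (some none, ⟨η.1, le_trans η.2 ha⟩, i) else
        .inl (.inr (E0 η, i))
  | .inr (⟨some k, η⟩, i) => .inr (some (some k), ⟨η.1, le_trans η.2 (hN k)⟩, i)

/-- the candidate for the long tree -/
noncomputable def wc (lt : Bool → I → I → Prop) (π : I) (w : I → ι → M)
    (u : Option (Option K) → Nd → ι → M) (g : I → Nd) (ρ : I) : ι → M :=
  if lt false π ρ then u none (g ρ) else if lt true π ρ then u (some none) (g ρ) else w ρ

/-- the candidate -/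
noncomputable def vc (lt : Bool → I → I → Prop) (π : I) (w : I → ι → M)
    (u : Option (Option K) → Nd → ι → M) (g : I → Nd) : (I × ι) ⊕ (K × Nd × ι) → M :=
  Sum.elim (fun p => wc lt π w u g p.1 p.2) (fun p => u (some (some p.1)) p.2.1 p.2.2)

/-- families of patterns -/
def fam {n : ℕ} (e0 e1 : LN n → Nd) (E : K → LN n → Nd) : Option (Option K) → LN n → Nd
  | none => e0
  | some none => e1
  | some (some k) => E k

def famd {m : ℕ} {dg : K → ℕ} (e0 e1 : LN m → Nd) (E : ∀ k, LN (dg k) → Nd) :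
    ∀ k, LN (dgo m (dgo m dg) k) → Nd
  | none => e0
  | some none => e1
  | some (some k) => E k

theorem step_i {Y : Sys M} {lt : Bool → I → I → Prop} (hB : BT lt) {x : X → M}
    {t : Option K → Nd → ι → M} {w : I → ι → M} {s : K → Nd → ι → M}
    (hR1 : ∀ n S, Y.D S → HK x t n S → HX lt x w s n S) (π : I) {C0 C1 : Nd → I}
    (hC0 : Cpy lt C0) (hC0' : ∀ ρ, lt false π (C0 ρ)) (hC1 : Cpy lt C1)
    (hC1' : ∀ ρ, lt true π (C1 ρ)) {u : Option (Option K) → Nd → ι → M}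
    (hu1 : ∀ (n : ℕ) (S : Set ((X ⊕ (I × ι)) ⊕ (Option (Option K) × LN n × ι) → M)), Y.D S →
      HK (xx x w) (TT C0 C1 w s) n S → HK (xx x w) u n S)
    (g : I → Nd) {n : ℕ} (S : Set (X ⊕ (Option K × LN n × ι) → M)) (hS : Y.D S)
    (hHK : HK x t n S) (E0 : LN n → I) (E : K → LN n → Nd) (hE0 : Pt lt n E0)
    (hE : ∀ k, Pt ndl n (E k)) (hg : Pt ndl n (fun η => g (E0 η))) :
    Sum.elim x (vc lt π w u g) ∘ J1 E0 E ∈ S := by
  have h1 : HK (xx x w) (TT C0 C1 w s) n {v | v ∘ Q1 lt π E0 ∈ S} := by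
    intro EE hEE
    have h2 := hR1 n S hS hHK _ (fun k => EE (some (some k)))
      (cone_pt hB π C0 C1 hC0 hC0' hC1 hC1' E0 hE0 (EE none) (EE (some none)) (hEE _) (hEE _))
      (fun k => hEE _)
    show _ ∈ S
    convert h2 using 1
    funext p
    rcases p with a | ⟨k, η, i⟩
    · rfl
    · rcases k with _ | k
      · show (Sum.elim (xx x w) _) (Q1 lt π E0 (Sum.inr (none, η, i))) = _
        simp only [Q1, Sum.elim_inr, Option.elim_none]
        split_ifs <;> rfl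
      · rfl
  have h3 := hu1 n _ (Y.pull (Q1 lt π E0) hS) h1
    (fam (fun η => g (E0 η)) (fun η => g (E0 η)) E) (by
      intro k
      rcases k with _ | _ | k
      · exact hg
      · exact hg
      · exact hE k)
  have h4 : _ ∈ S := h3
  convert h4 using 1
  funext p
  rcases p with a | ⟨k, η, i⟩
  · rfl
  · rcases k with _ | k
    · show wc lt π w u g (E0 η) i = (Sum.elim (xx x w) _) (Q1 lt π E0 (Sum.inr (none, η, i)))
      simp only [Q1, wc]
      split_ifs <;> rfl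
    · rfl

theorem step_ii {Y : Sys M} {lt : Bool → I → I → Prop} (hB : BT lt) {x : X → M}
    {w : I → ι → M} {s : K → Nd → ι → M} (π : I) {C0 C1 : Nd → I}
    (hC0 : Cpy lt C0) (hC0' : ∀ ρ, lt false π (C0 ρ)) (hC1 : Cpy lt C1)
    (hC1' : ∀ ρ, lt true π (C1 ρ)) {u : Option (Option K) → Nd → ι → M}
    (hu1 : ∀ (n : ℕ) (S : Set ((X ⊕ (I × ι)) ⊕ (Option (Option K) × LN n × ι) → M)), Y.D S →
      HK (xx x w) (TT C0 C1 w s) n S → HK (xx x w) u n S)
    (g : I → Nd) {a N : ℕ} {dg : K → ℕ} (ha : a ≤ N) (hN : ∀ k, dg k ≤ N)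
    (S : Set (X ⊕ ((Σ k, LN (dgo a dg k)) × ι) → M)) (hS : Y.D S) (q : I)
    (hR2 : ∀ (E0 : LN a → I) (E : ∀ k, LN (dg k) → Nd), Pt lt a E0 → (∀ k, Pt ndl _ (E k)) →
      E0 (rt a) = q → tpx x w s E0 E ∈ S) (hq : ∀ d, ¬ lt d π q)
    (E0 : LN a → I) (E : ∀ k, LN (dg k) → Nd) (hE0 : Pt lt a E0)
    (hE : ∀ k, Pt ndl _ (E k)) (hr : E0 (rt a) = q) (hg : Pt ndl a (fun η => g (E0 η))) :
    Sum.elim x (vc lt π w u g) ∘ J2 E0 E ∈ S := by
  have h1 : HK (xx x w) (TT C0 C1 w s) N {v | v ∘ Q2 lt π ha hN E0 ∈ S} := by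
    intro EE hEE
    have h2 := hR2 _ (fun k η => EE (some (some k)) ⟨η.1, le_trans η.2 (hN k)⟩)
      (cone_pt hB π C0 C1 hC0 hC0' hC1 hC1' E0 hE0 (fun η => EE none ⟨η.1, le_trans η.2 ha⟩)
        (fun η => EE (some none) ⟨η.1, le_trans η.2 ha⟩)
        (fun η η' d h => hEE _ _ _ d h) (fun η η' d h => hEE _ _ _ d h))
      (fun k η η' d h => hEE _ _ _ d h)
      (by
        show (if _ then _ else _) = _
        rw [hr, if_neg (hq _), if_neg (hq _)])
    show _ ∈ S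
    convert h2 using 1
    funext p
    rcases p with a | ⟨⟨k, η⟩, i⟩
    · rfl
    · rcases k with _ | k
      · show (Sum.elim (xx x w) _) (Q2 lt π ha hN E0 (Sum.inr (⟨none, η⟩, i))) = _
        simp only [Q2, tpx, Sum.elim_inr]
        split_ifs <;> rfl
      · rfl
  obtain ⟨e0, he0, he0'⟩ := ext_ndl ha _ hg
  have hex : ∀ k, ∃ E' : LN N → Nd, Pt ndl N E' ∧
      ∀ η : LN (dg k), E' ⟨η.1, le_trans η.2 (hN k)⟩ = E k η := fun k => ext_ndl (hN k) _ (hE k)
  choose e he he' using hex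
  have h3 := hu1 N _ (Y.pull (Q2 lt π ha hN E0) hS) h1 (fam e0 e0 e) (by
      intro k
      rcases k with _ | _ | k
      · exact he0
      · exact he0
      · exact he k)
  have h4 : _ ∈ S := h3
  convert h4 using 1
  funext p
  rcases p with a | ⟨⟨k, η⟩, i⟩
  · rfl
  · rcases k with _ | k
    · show wc lt π w u g (E0 η) i =
        (Sum.elim (xx x w) _) (Q2 lt π ha hN E0 (Sum.inr (⟨none, η⟩, i)))
      simp only [Q2, wc]
      split_ifs
      · exact congrArg (fun z => u none z i) (he0' η).symm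
      · exact congrArg (fun z => u (some none) z i) (he0' η).symm
      · rfl
    · exact congrArg (fun z => u (some (some k)) z i) (he' k η).symm

theorem step_iii {lt : Bool → I → I → Prop} (hB : BT lt) {x : X → M}
    {w : I → ι → M} (π : I) {u : Option (Option K) → Nd → ι → M}
    (g : I → Nd) {m : ℕ} {dg : K → ℕ}
    (E0 : LN (m + 1) → I) (E : ∀ k, LN (dg k) → Nd) (hE0 : Pt lt (m + 1) E0)
    (hr : E0 (rt (m + 1)) = π) :
    Sum.elim x (vc lt π w u g) ∘ J2 E0 E = tpl (xx x w) u (famd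
      (fun η : LN m => g (E0 ⟨false :: η.1, Nat.succ_le_succ η.2⟩))
      (fun η : LN m => g (E0 ⟨true :: η.1, Nat.succ_le_succ η.2⟩)) E) ∘ PP π := by
  have hir : ∀ (e : Bool) (a : I), ¬ lt e a a := fun e a h =>
    hB.wf.irrefl.irrefl a ⟨e, h⟩
  funext p
  rcases p with a | ⟨⟨k, η⟩, i⟩
  · rfl
  · rcases k with _ | k
    · obtain ⟨l, hl⟩ := η
      rcases l with _ | ⟨b, l⟩
      · show wc lt π w u g (E0 (rt (m + 1))) i = w π i
        rw [hr, wc, if_neg (hir _ _), if_neg (hir _ _)]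
      · rcases b with _ | _
        · show wc lt π w u g (E0 ⟨false :: l, hl⟩) i = u none (g (E0 ⟨false :: l, hl⟩)) i
          have h := hE0 (rt (m + 1)) ⟨false :: l, hl⟩ false ⟨l, rfl⟩
          rw [hr] at h
          rw [wc, if_pos h]
        · show wc lt π w u g (E0 ⟨true :: l, hl⟩) i = u (some none) (g (E0 ⟨true :: l, hl⟩)) i
          have h := hE0 (rt (m + 1)) ⟨true :: l, hl⟩ true ⟨l, rfl⟩
          rw [hr] at h
          have h' : ¬ lt false π (E0 ⟨true :: l, hl⟩) := fun h2 => by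
            have := hB.uniq h h2
            exact absurd this (by decide)
          rw [wc, if_neg h', if_pos h]
    · rfl

/-- the conditions with positions in `P0` -/
def Cnd (Y : Sys M) (lt : Bool → I → I → Prop) (x : X → M) (t : Option K → Nd → ι → M) {a : ℕ}
    {dg : K → ℕ} (F : FF M X ι K I a dg) (P0 : Finset I)
    (Z : Set (X ⊕ ((I × ι) ⊕ (K × Nd × ι)) → M)) : Prop :=
  (∃ (n : ℕ) (S : Set (X ⊕ (Option K × LN n × ι) → M)) (E0 : LN n → I) (E : K → LN n → Nd),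
    Y.D S ∧ HK x t n S ∧ Pt lt n E0 ∧ (∀ k, Pt ndl n (E k)) ∧ (∀ η, E0 η ∈ P0) ∧
    Z = {v | v ∘ J1 E0 E ∈ S}) ∨
  ∃ q ∈ F, ∃ (E0 : LN a → I) (E : ∀ k, LN (dg k) → Nd), Pt lt a E0 ∧ (∀ k, Pt ndl _ (E k)) ∧
    E0 (rt a) = q.1 ∧ (∀ η, E0 η ∈ P0) ∧ ∃ S ∈ q.2, Z = {v | v ∘ J2 E0 E ∈ S}

theorem Cnd.mono {Y : Sys M} {lt : Bool → I → I → Prop} {x : X → M} {t : Option K → Nd → ι → M}
    {a : ℕ} {dg : K → ℕ} {F : FF M X ι K I a dg} {P0 P1 : Finset I} (h : P0 ⊆ P1)
    {Z : Set (X ⊕ ((I × ι) ⊕ (K × Nd × ι)) → M)} (hZ : Cnd Y lt x t F P0 Z) :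
    Cnd Y lt x t F P1 Z := by
  rcases hZ with ⟨n, S, E0, E, h1, h2, h3, h4, h5, h6⟩ | ⟨q, hq, E0, E, h1, h2, h3, h4, h5⟩
  · exact Or.inl ⟨n, S, E0, E, h1, h2, h3, h4, fun η => h (h5 η), h6⟩
  · exact Or.inr ⟨q, hq, E0, E, h1, h2, h3, fun η => h (h4 η), h5⟩

theorem t_EXN : S_EXN.{u} := by
  intro M Y hSat hEC X ι K I _ _ lt hB x t m dg hPH F hF π hπ hdn
  obtain ⟨w, s, hR1, hR2⟩ := hF.cons
  obtain ⟨C0, hC0, hC0'⟩ := hB.cp π false
  obtain ⟨C1, hC1, hC1'⟩ := hB.cp π true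
  obtain ⟨u, hu1, hu2⟩ := hPH (X ⊕ (I × ι)) (xx x w) (TT C0 C1 w s)
  set vθ : X ⊕ ((Σ k, LN (dgo (m + 1) dg k)) × ι) → M :=
    tpl (xx x w) u (fun k η => η.1) ∘ PP π with hvθ
  set θ : Set (Set (X ⊕ ((Σ k, LN (dgo (m + 1) dg k)) × ι) → M)) := {S | Y.D S ∧ vθ ∈ S} with hθ
  have h2 : ∀ S ∈ θ, ∀ EE : ∀ k, LN (dgo m (dgo m dg) k) → Nd, (∀ k, Pt ndl _ (EE k)) →
      tpl (xx x w) u EE ∘ PP π ∈ S := by
    intro S hS EE hEE
    exact hu2 _ (Y.pull (PP π) hS.1) (fun k η => η.1) EE (fun k η η' d h => h) hEE hS.2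
  have hno : ∀ q ∈ F, ∀ d, ¬ lt d π q.1 := by
    intro q hq d h
    obtain ⟨θ', hθ'⟩ := hF.dn q hq π d h
    exact hπ _ hθ'
  refine ⟨θ, ?_, ?_, ?_, ?_⟩
  · intro q hq q' hq' h
    rcases hq with rfl | hq <;> rcases hq' with rfl | hq'
    · rfl
    · exact absurd (show (π, q'.2) ∈ F by rw [show π = q'.1 from h]; exact hq') (hπ _)
    · exact absurd (show (π, q.2) ∈ F by rw [show π = q.1 from h.symm]; exact hq) (hπ _)
    · exact hF.fn q hq q' hq' h
  · intro q hq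
    rcases hq with rfl | hq
    · exact ⟨vθ, rfl⟩
    · exact hF.tp q hq
  · intro q hq ρ d h
    rcases hq with rfl | hq
    · obtain ⟨θ', hθ'⟩ := hdn ρ d h
      exact ⟨θ', Or.inr hθ'⟩
    · obtain ⟨θ', hθ'⟩ := hF.dn q hq ρ d h
      exact ⟨θ', Or.inr hθ'⟩
  · have hsat := hSat X ((I × ι) ⊕ (K × Nd × ι)) x
      {Z | ∃ P0, Cnd Y lt x t (insert (π, θ) F) P0 Z} (by
        rintro Z ⟨P0, hZ⟩
        rcases hZ with ⟨n, S, E0, E, h1, h2, h3, h4, h5, rfl⟩ |
          ⟨q, hq, E0, E, h1, h2, h3, h4, S, hS, rfl⟩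
        · exact Y.pull (J1 E0 E) h1
        · refine Y.pull (J2 E0 E) ?_
          rcases hq with rfl | hq
          · exact hS.1
          · obtain ⟨v0, hv0⟩ := hF.tp q hq
            rw [hv0] at hS
            exact hS.1) (by
        intro Δ hΔ
        choose! PZ hPZ using hΔ
        set P := Δ.biUnion PZ with hP
        obtain ⟨g, hg⟩ := hB.fe P
        refine ⟨vc lt π w u g, fun Z hZ => ?_⟩
        have hZ2 : Cnd Y lt x t (insert (π, θ) F) P Z :=
          (hPZ Z hZ).mono (Finset.subset_biUnion_of_mem PZ hZ)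
        rcases hZ2 with ⟨n, S, E0, E, h1, h2, h3, h4, h5, rfl⟩ |
          ⟨q, hq, E0, E, h1, h2', h3, h4, S, hS, rfl⟩
        · exact step_i hB hR1 π hC0 hC0' hC1 hC1' hu1 g S h1 h2 E0 E h3 h4
            (fun η η' d h => hg _ (h5 _) _ (h5 _) d (h3 η η' d h))
        · rcases hq with rfl | hq
          · show _ ∘ _ ∈ S
            rw [step_iii hB π g E0 E h1 h3]
            refine h2 S hS _ ?_
            intro k
            rcases k with _ | _ | k
            · intro η η' d h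
              refine hg _ (h4 _) _ (h4 _) d (h1 _ _ d ?_)
              obtain ⟨l, hl⟩ := h
              exact ⟨l, congrArg (List.cons false) hl⟩
            · intro η η' d h
              refine hg _ (h4 _) _ (h4 _) d (h1 _ _ d ?_)
              obtain ⟨l, hl⟩ := h
              exact ⟨l, congrArg (List.cons true) hl⟩
            · exact h2' k
          · obtain ⟨N, hN⟩ : ∃ N, ∀ k, dg k ≤ N := by
              obtain ⟨N, hN⟩ := (Set.finite_range dg).bddAbove
              exact ⟨N, fun k => hN ⟨k, rfl⟩⟩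
            have hD : Y.D S := by
              obtain ⟨v0, hv0⟩ := hF.tp q hq
              rw [hv0] at hS
              exact hS.1
            exact step_ii hB π hC0 hC0' hC1 hC1' hu1 g (N := max (m + 1) N) (le_max_left _ _)
              (fun k => (hN k).trans (le_max_right _ _)) S hD q.1
              (fun E0 E a1 a2 a3 => hR2 q hq E0 E a1 a2 a3 S hS) (hno q hq) E0 E h1 h2' h3
              (fun η η' d h => hg _ (h4 _) _ (h4 _) d (h1 η η' d h)))
    obtain ⟨v, hv⟩ := hsat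
    refine ⟨fun ρ i => v (Sum.inl (ρ, i)), fun k ρ i => v (Sum.inr (k, ρ, i)), ?_, ?_⟩
    · intro n S hS hHK E0 E hE0 hE
      have := finLN n
      have := Fintype.ofFinite (LN n)
      have h := hv {v | v ∘ J1 E0 E ∈ S} ⟨Finset.univ.image E0, Or.inl ⟨n, S, E0, E, hS, hHK, hE0,
        hE, fun η => Finset.mem_image_of_mem _ (Finset.mem_univ _), rfl⟩⟩
      have h' : _ ∈ S := h
      convert h' using 1
      funext p
      rcases p with a | ⟨k, η, i⟩
      · rfl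
      · rcases k with _ | k <;> rfl
    · intro q hq E0 E hE0 hE hr S hS
      have := finLN (m + 1)
      have := Fintype.ofFinite (LN (m + 1))
      have h := hv {v | v ∘ J2 E0 E ∈ S} ⟨Finset.univ.image E0, Or.inr ⟨q, hq, E0, E, hE0, hE, hr,
        fun η => Finset.mem_image_of_mem _ (Finset.mem_univ _), S, hS, rfl⟩⟩
      have h' : _ ∈ S := h
      convert h' using 1
      funext p
      rcases p with a | ⟨⟨k, η⟩, i⟩
      · rfl
      · rcases k with _ | k <;> rfl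


end Pool.Agent.K1H6.PLG
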