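import Pool.Agent.K1H49.PL.Gen

/-!
# Patterns: extension of patterns, replacement of cones
-/

namespace Pool.Agent.K1H6.PLG

open Pool.Agent.K1H49.PL

/-- a pattern of the binary tree of height `a` extends to height `N` -/
theorem ext_ndl {a N : ℕ} (h : a ≤ N) (E : LN a → Nd) (hE : Pt ndl a E) :
    ∃ E' : LN N → Nd, Pt ndl N E' ∧ ∀ η : LN a, E' ⟨η.1, le_trans η.2 h⟩ = E η := by
  refine ⟨fun η => E ⟨η.1.take a, by simp⟩ ++ η.1.drop a, ?_, ?_⟩
  · intro η η' d hd
    obtain ⟨l, hl⟩ := hd
    show (E ⟨η.1.take a, _⟩ ++ η.1.drop a) ++ [d] <+: E ⟨η'.1.take a, _⟩ ++ η'.1.drop a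
    by_cases hlen : η.1.length < a
    · have h1 : η.1.take a = η.1 := List.take_of_length_le hlen.le
      have h2 : η.1.drop a = [] := List.drop_of_length_le hlen.le
      have h3 : (η.1 ++ [d]) <+: η'.1.take a :=
        List.prefix_take_iff.mpr ⟨⟨l, hl⟩, by simp; omega⟩
      have h4 := hE ⟨η.1.take a, by simp⟩ ⟨η'.1.take a, by simp⟩ d (by
        show η.1.take a ++ [d] <+: η'.1.take a
        rw [h1]; exact h3)
      rw [h2, List.append_nil]
      exact h4.trans (List.prefix_append _ _)
    · push Not at hlen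
      have h1 : η'.1.take a = η.1.take a := by
        rw [← hl, List.append_assoc, List.take_append_of_le_length hlen]
      have h2 : η'.1.drop a = η.1.drop a ++ ([d] ++ l) := by
        rw [← hl, List.append_assoc, List.drop_append_of_le_length hlen]
      refine ⟨l, ?_⟩
      have h3 : (⟨η'.1.take a, by simp⟩ : LN a) = ⟨η.1.take a, by simp⟩ := Subtype.ext h1
      rw [h3, h2]
      simp [List.append_assoc]
  · intro η
    show E ⟨η.1.take a, _⟩ ++ η.1.drop a = E η
    have h1 : η.1.take a = η.1 := List.take_of_length_le η.2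
    have h2 : η.1.drop a = [] := List.drop_of_length_le η.2
    have h3 : (⟨η.1.take a, by simp⟩ : LN a) = η := Subtype.ext h1
    rw [h3, h2, List.append_nil]

open Classical in
/-- replacing the parts of a pattern in the two cones of `π` by copies in these cones -/
theorem cone_pt {I : Type} {lt : Bool → I → I → Prop} (hB : BT lt) (π : I) (C0 C1 : Nd → I)
    (hC0 : Cpy lt C0) (hC0' : ∀ ρ, lt false π (C0 ρ)) (hC1 : Cpy lt C1)
    (hC1' : ∀ ρ, lt true π (C1 ρ)) {n : ℕ} (E0 : LN n → I) (hE0 : Pt lt n E0)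
    (F0 F1 : LN n → Nd) (hF0 : Pt ndl n F0) (hF1 : Pt ndl n F1) :
    Pt lt n (fun η => if lt false π (E0 η) then C0 (F0 η) else
      if lt true π (E0 η) then C1 (F1 η) else E0 η) := by
  have hir : ∀ (e : Bool) (a : I), ¬ lt e a a := fun e a h =>
    hB.wf.irrefl.irrefl a ⟨e, h⟩
  have key : ∀ (η η' : LN n) (d : Bool), (η.1 ++ [d]) <+: η'.1 → ∀ (e : Bool) (C : I),
      lt e π C → ¬ (∃ e', lt e' π (E0 η)) → lt e π (E0 η') → lt d (E0 η) C := by
    intro η η' d hd e C hC hn he
    have h1 := hE0 η η' d hd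
    rcases hB.lin h1 he with h | ⟨e', h⟩ | ⟨e', h⟩
    · rw [h] at h1 ⊢
      rw [hB.uniq h1 he]; exact hC
    · have h2 := hB.trans h he
      have h3 := hB.uniq h1 h2
      rw [h3]; exact hB.trans h hC
    · exact absurd ⟨e', h⟩ hn
  intro η η' d hd
  have hlt := hE0 η η' d hd
  have up : ∀ e, lt e π (E0 η) → lt e π (E0 η') := fun e h => hB.trans h hlt
  show lt d (if lt false π (E0 η) then C0 (F0 η) else
      if lt true π (E0 η) then C1 (F1 η) else E0 η)
      (if lt false π (E0 η') then C0 (F0 η') else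
      if lt true π (E0 η') then C1 (F1 η') else E0 η')
  by_cases h0 : lt false π (E0 η)
  · rw [if_pos h0, if_pos (up _ h0)]
    exact hC0 _ _ _ (hF0 η η' d hd)
  · by_cases h1 : lt true π (E0 η)
    · have h0' : ¬ lt false π (E0 η') := fun h => by
        have := hB.uniq h (up _ h1); exact absurd this (by decide)
      rw [if_neg h0, if_pos h1, if_neg h0', if_pos (up _ h1)]
      exact hC1 _ _ _ (hF1 η η' d hd)
    · rw [if_neg h0, if_neg h1]
      have hn : ¬ (∃ e', lt e' π (E0 η)) := by
        rintro ⟨e', h⟩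
        cases e'
        · exact h0 h
        · exact h1 h
      by_cases h0' : lt false π (E0 η')
      · rw [if_pos h0']
        exact key η η' d hd false _ (hC0' _) hn h0'
      · by_cases h1' : lt true π (E0 η')
        · rw [if_neg h0', if_pos h1']
          exact key η η' d hd true _ (hC1' _) hn h1'
        · rw [if_neg h0', if_neg h1']; exact hlt

end Pool.Agent.K1H6.PLG
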